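import Mathlib

namespace Pool.Agent.Results.MP_ecbd44_co.Full

open Polynomial Finset

/-- `H_d(n,x)`; the coefficient `(n-1)(n-2)⋯(n-d+1)` vanishes for `n < d`. -/
noncomputable def H (d : ℕ) : ℕ → ℤ[X]
  | 0 => 1
  | n + 1 => X * H d n + (n.descFactorial (d - 1) : ℤ[X]) * H d (n - (d - 1))
decreasing_by all_goals omega

/-- The Hankel matrix `M_d(n,x)`. -/
noncomputable def M (d n : ℕ) : Matrix (Fin n) (Fin n) ℤ[X] := Matrix.of fun i j => H d (i + j)

theorem der (d n : ℕ) : derivative (H d (n + 1)) = (n + 1 : ℤ[X]) * H d n := by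
  induction n using Nat.strong_induction_on with
  | _ n ih =>
  rcases n with _ | n
  · simp [H]
  rw [H]
  simp only [derivative_add, derivative_mul, derivative_X, derivative_natCast, ih n (by omega)]
  by_cases h : n < d - 1
  · rw [show n + 1 - (d - 1) = 0 by omega, H, H, Nat.descFactorial_of_lt h]
    simp
    ring
  · have e := congrArg (Nat.cast : ℕ → ℤ[X]) (Nat.succ_descFactorial n (d - 1))
    rw [show n + 1 - (d - 1) = n - (d - 1) + 1 by omega] at e ⊢
    rw [ih _ (by omega), H]
    push_cast at e ⊢
    linear_combination H d (n - (d - 1)) * e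

theorem co (d k : ℕ) :
    ∀ n, (H d n).coeff k = n.choose k * (H d (n - k)).coeff 0 := by
  induction k with
  | zero => simp
  | succ k ih =>
    rintro (_ | n)
    · simp [H, coeff_one]
    have a := congrArg (coeff · k) (der d n)
    have b := congrArg (Nat.cast : ℕ → ℤ) (Nat.add_one_mul_choose_eq n k)
    rw [← Nat.cast_add_one] at a
    simp only [coeff_derivative, coeff_natCast_mul, ih] at a
    refine mul_right_cancel₀ (show (k + 1 : ℤ) ≠ 0 by omega) ?_
    rw [a, Nat.add_sub_add_right]
    push_cast at b ⊢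
    linear_combination (H d (n - k)).coeff 0 * b

theorem const (d n : ℕ) :
    (M d n).det = C (Matrix.of fun i j : Fin n => (H d (i + j)).coeff 0).det := by
  let L : ℤ[X][X] →ₗ[ℤ[X]] ℤ[X] := (basisMonomials ℤ[X]).constr ℤ[X] fun k => C ((H d k).coeff 0)
  have l : ∀ k, L (X ^ k) = C ((H d k).coeff 0) := fun k => by
    simpa [L, monomial_one_right_eq_X_pow] using
      (basisMonomials ℤ[X]).constr_basis ℤ[X] (fun k => C ((H d k).coeff 0)) k
  have h : ∀ m, L ((X + C X) ^ m) = H d m := fun m => by
    rw [add_comm, add_pow, map_sum]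
    ext k
    have t : ∀ j, (C X ^ j * X ^ (m - j) * (m.choose j : ℤ[X][X])) =
        (C (m.choose j : ℤ) * X ^ j : ℤ[X]) • X ^ (m - j) := fun j => by
      simp [smul_eq_C_mul]
      ring
    simp only [t, map_smul, l, smul_eq_mul, finsetSum_coeff, coeff_mul_C, coeff_C_mul_X_pow]
    rw [co d, sum_eq_single k (fun j _ e => by simp [e.symm]) fun e => by
      simp [Nat.choose_eq_zero_of_lt (show m < k by simpa using e)]]
    simp
  let P : Matrix (Fin n) (Fin n) ℤ[X] := .of fun i j => ((X + C X) ^ (j : ℕ) : ℤ[X][X]).coeff i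
  have p : P.det = 1 := Matrix.det_matrixOfPolynomials (fun j => (X + C X) ^ (j : ℕ))
    (fun j => by rw [(monic_X_add_C _).natDegree_pow, natDegree_X_add_C, mul_one])
    fun j => (monic_X_add_C _).pow _
  have q : ∀ j : Fin n, ((X + C X) ^ (j : ℕ) : ℤ[X][X]) = ∑ i : Fin n, P i j • X ^ (i : ℕ) := by
    intro j
    rw [as_sum_range' ((X + C X) ^ (j : ℕ) : ℤ[X][X]) n (by
      rw [(monic_X_add_C _).natDegree_pow, natDegree_X_add_C, mul_one]; exact j.2), sum_range]
    simp [P, smul_eq_C_mul, C_mul_X_pow_eq_monomial]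
  have e : M d n = P.transpose * C.mapMatrix (Matrix.of fun i j : Fin n =>
      (H d (i + j)).coeff 0) * P := by
    ext1 i j
    rw [M, Matrix.of_apply, ← h, pow_add, q, q, sum_mul_sum, sum_comm]
    simp only [map_sum, smul_mul_smul_comm, map_smul, ← pow_add, l, Matrix.mul_apply, sum_mul]
    refine sum_congr rfl fun a _ => sum_congr rfl fun b _ => ?_
    simp
    ring
  rw [e, Matrix.det_mul, Matrix.det_mul, Matrix.det_transpose, p, ← RingHom.map_det]
  simp

theorem dvd (d n : ℕ) : ((∏ i ∈ range n, i.factorial : ℕ) : ℤ[X]) ∣ (M d n).det := by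
  let E : ℕ → ℕ → ℤ[X] := fun k j => j.descFactorial k * H d (j - k)
  let V := Submodule.span ℤ[X] (Set.range E)
  have m : ∀ k, E k ∈ V := fun k => Submodule.subset_span ⟨k, rfl⟩
  have s : ∀ f ∈ V, (fun j => f (j + 1)) ∈ V := by
    intro f hf
    induction hf using Submodule.span_induction with
    | zero => exact V.zero_mem
    | add _ _ _ _ a b => exact V.add_mem a b
    | smul c _ _ a => exact V.smul_mem c a
    | mem _ h =>
      obtain ⟨k, rfl⟩ := h
      have : (fun j => E k (j + 1)) = (k : ℤ[X]) • E (k - 1) + (X : ℤ[X]) • E k + E (k + (d - 1)) := by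
        funext j
        simp only [E, Pi.add_apply, Pi.smul_apply, smul_eq_mul]
        rcases k with _ | k
        · simp [H]
        have a : (j + 1).descFactorial (k + 1) =
            (k + 1) * j.descFactorial k + j.descFactorial (k + 1) := by
          rw [Nat.succ_descFactorial_succ, Nat.descFactorial_succ, ← add_mul]
          by_cases h : k ≤ j
          · congr 1; omega
          · simp [Nat.descFactorial_of_lt (not_le.1 h)]
        rw [a, Nat.add_sub_add_right, Nat.add_sub_cancel]
        by_cases h : k < j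
        · have b := Nat.descFactorial_mul_descFactorial (n := j) (k := k + 1)
            (m := k + 1 + (d - 1)) (by omega)
          rw [← b, Nat.add_sub_cancel_left, ← Nat.sub_sub j (k + 1)]
          rw [show j - k = j - (k + 1) + 1 by omega, H]
          push_cast
          ring
        · rw [Nat.descFactorial_of_lt (show j < k + 1 by omega),
            Nat.descFactorial_of_lt (show j < k + 1 + (d - 1) by omega)]
          simp [mul_assoc]
      rw [this]
      exact V.add_mem (V.add_mem (V.smul_mem _ (m _)) (V.smul_mem _ (m _))) (m _)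
  have r : ∀ i, (fun j => H d (i + j)) ∈ V := by
    intro i
    induction i with
    | zero => simpa [E] using m 0
    | succ i ih => simpa [add_assoc, add_comm 1] using s _ ih
  have t : ∀ f ∈ V, ∃ c : Fin n → ℤ[X], ∀ j : Fin n, f j = ∑ k, c k * E k j := by
    intro f hf
    induction hf using Submodule.span_induction with
    | zero => exact ⟨0, by simp⟩
    | add _ _ _ _ a b =>
      obtain ⟨a, u⟩ := a
      obtain ⟨b, v⟩ := b
      exact ⟨a + b, fun j => by simp [u, v, add_mul, sum_add_distrib]⟩
    | smul c _ _ a =>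
      obtain ⟨a, u⟩ := a
      exact ⟨c • a, fun j => by simp [u, mul_sum, mul_assoc]⟩
    | mem _ h =>
      obtain ⟨k, rfl⟩ := h
      by_cases h : k < n
      · exact ⟨Pi.single ⟨k, h⟩ 1, fun j => by simp [Pi.single_apply]⟩
      · exact ⟨0, fun j => by simp [E, Nat.descFactorial_of_lt (show (j : ℕ) < k by omega)]⟩
  choose c hc using fun i : Fin n => t _ (r i)
  have e : M d n = Matrix.of c * Matrix.of fun k j : Fin n => E k j := by
    ext1 i j
    exact hc i j
  rw [e, Matrix.det_mul, Matrix.det_of_isUpperTriangular (M := Matrix.of fun k j : Fin n => E k j)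
    fun k j (h : (j : ℕ) < k) => by simp [E, Nat.descFactorial_of_lt h]]
  refine Dvd.dvd.mul_left (dvd_of_eq ?_) _
  simp [E, H, Nat.descFactorial_self, prod_range]

theorem result : ∀ d ≥ 2, ∀ n : ℕ, ∃ c : ℤ, (M d n).det = C c ∧
    ((∏ i ∈ range n, i.factorial : ℕ) : ℤ) ∣ c := by
  intro d _ n
  refine ⟨_, const d n, ?_⟩
  have := dvd d n
  rw [const d, ← C_eq_natCast, C_dvd_iff_dvd_coeff] at this
  simpa using this 0

end Pool.Agent.Results.MP_ecbd44_co.Full
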